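import Pool.Agent.W120.WM.Defs2
import Pool.Agent.H295R2.L

/-! Mellin inversion on the line `Re s = 1/2 + δ` under RH -/

set_option autoImplicit false

open MeasureTheory Filter Topology Set

namespace Pool.Agent.W929.WM

open Pool.Agent.W120.WM Pool.Agent.H295R2

/-- the entire function -/
noncomputable def Fz (s : ℂ) : ℂ := s * riemannZeta₁ s

/-- the numerator -/
noncomputable def gz (h v : ℝ) (s : ℂ) : ℂ := (s - 1) * EE h v s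

theorem Fz_diff : Differentiable ℂ Fz := by
  unfold Fz
  exact differentiable_id.mul differentiable_riemannZeta₁

theorem gz_diff (h v : ℝ) : Differentiable ℂ (gz h v) := by
  unfold gz EE
  fun_prop

theorem z1_eq (s : ℂ) (hs : s ≠ 1) : riemannZeta₁ s = (s - 1) * riemannZeta s := by
  have h : s - 1 ≠ 0 := sub_ne_zero.mpr hs
  rw [riemannZeta_eq_inv_sub_mul hs, ← mul_assoc, mul_inv_cancel₀ h, one_mul]

theorem quot (h v : ℝ) (s : ℂ) (hs : s ≠ 1) : gz h v s / Fz s = GG h v s := by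
  have h1 : s - 1 ≠ 0 := sub_ne_zero.mpr hs
  unfold gz Fz GG
  rw [z1_eq s hs]
  have e : s * ((s - 1) * riemannZeta s) = (s - 1) * (s * riemannZeta s) := by ring
  rw [e, mul_div_mul_left _ _ h1]

theorem norm_EE (h v : ℝ) (σ t : ℝ) :
    ‖EE h v (⟨σ, t⟩ : ℂ)‖ = Real.exp (h ^ 2 / 2 * (σ ^ 2 - t ^ 2) + v * σ) := by
  unfold EE
  rw [Complex.norm_exp]
  congr 1
  have e : ((h : ℂ) ^ 2 / 2 * (⟨σ, t⟩ : ℂ) ^ 2 + v * (⟨σ, t⟩ : ℂ)).re = h ^ 2 / 2 * (σ ^ 2 - t ^ 2) + v * σ := by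
    have e1 : (⟨σ, t⟩ : ℂ) = (σ : ℂ) + t * Complex.I := by
      apply Complex.ext <;> simp
    have e2 : ((h : ℂ) ^ 2 / 2 * (⟨σ, t⟩ : ℂ) ^ 2 + v * (⟨σ, t⟩ : ℂ)) =
        ((h ^ 2 / 2 * (σ ^ 2 - t ^ 2) + v * σ : ℝ) : ℂ) + ((h ^ 2 * σ * t + v * t : ℝ) : ℂ) * Complex.I := by
      rw [e1]
      push_cast
      ring_nf
      rw [Complex.I_sq]
      ring
    rw [e2, Complex.add_re, Complex.ofReal_re, Complex.mul_I_re, Complex.ofReal_im, neg_zero, add_zero]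
  rw [e]

theorem zs_ne (hRH : RHp) (s : ℂ) (hs : 1 / 2 < s.re) : Zs s ≠ 0 := by
  intro h0
  by_cases h1 : 1 ≤ s.re
  · exact Zs_ne_zero_of_one_le h1 h0
  · have hs1 : s ≠ 1 := by
      rintro rfl
      simp at h1
    rw [← Zs_eq hs1, mul_eq_zero] at h0
    rcases h0 with h0 | h0
    · exact hs1 (sub_eq_zero.mp h0)
    · have h2 := hRH s ⟨h0, by linarith, not_le.mp h1⟩
      linarith

theorem quot_bound (h v C x t : ℝ) (hC : 0 ≤ C) (hx : 1 / 2 ≤ x) (hx2 : x ≤ 3 / 2)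
    (hb : ‖fz (⟨x, t⟩ : ℂ)‖ ≤ C * (1 + |t|)) :
    ‖gz h v (⟨x, t⟩ : ℂ) / Fz ⟨x, t⟩‖ ≤
      3 * C * Real.exp (9 / 8 * h ^ 2 + 3 / 2 * |v|) * Real.exp (-(h ^ 2 / 2) * t ^ 2) := by
  have e : gz h v (⟨x, t⟩ : ℂ) / Fz ⟨x, t⟩ = EE h v (⟨x, t⟩ : ℂ) * (fz (⟨x, t⟩ : ℂ) / (⟨x, t⟩ : ℂ)) := by
    unfold gz Fz fz Zs
    rw [mul_comm ((⟨x, t⟩ : ℂ) - 1) (EE h v ⟨x, t⟩), mul_div_assoc, div_div, mul_comm (⟨x, t⟩ : ℂ)]
  rw [e, norm_mul, norm_div, norm_EE]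
  have h1 : |t| ≤ ‖(⟨x, t⟩ : ℂ)‖ := Complex.abs_im_le_norm (⟨x, t⟩ : ℂ)
  have h2 : x ≤ ‖(⟨x, t⟩ : ℂ)‖ := (le_abs_self x).trans (Complex.abs_re_le_norm (⟨x, t⟩ : ℂ))
  have hpos : 0 < ‖(⟨x, t⟩ : ℂ)‖ := by linarith
  have h3 : ‖fz (⟨x, t⟩ : ℂ)‖ / ‖(⟨x, t⟩ : ℂ)‖ ≤ 3 * C := by
    rw [div_le_iff₀ hpos]
    refine hb.trans ?_
    have h4 : 1 + |t| ≤ 3 * ‖(⟨x, t⟩ : ℂ)‖ := by linarith
    nlinarith
  have h5 : v * x ≤ 3 / 2 * |v| := by
    have h6 : v * x ≤ |v| * x := mul_le_mul_of_nonneg_right (le_abs_self v) (by linarith)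
    have h7 : |v| * x ≤ |v| * (3 / 2) := mul_le_mul_of_nonneg_left hx2 (abs_nonneg v)
    linarith
  have h8 : x ^ 2 ≤ 9 / 4 := by nlinarith
  have h9 : Real.exp (h ^ 2 / 2 * (x ^ 2 - t ^ 2) + v * x) ≤
      Real.exp (9 / 8 * h ^ 2 + 3 / 2 * |v|) * Real.exp (-(h ^ 2 / 2) * t ^ 2) := by
    rw [← Real.exp_add]
    apply Real.exp_le_exp.mpr
    have h10 : h ^ 2 / 2 * x ^ 2 ≤ h ^ 2 / 2 * (9 / 4) :=
      mul_le_mul_of_nonneg_left h8 (by positivity)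
    nlinarith
  calc Real.exp (h ^ 2 / 2 * (x ^ 2 - t ^ 2) + v * x) *
        (‖fz (⟨x, t⟩ : ℂ)‖ / ‖(⟨x, t⟩ : ℂ)‖)
      ≤ (Real.exp (9 / 8 * h ^ 2 + 3 / 2 * |v|) * Real.exp (-(h ^ 2 / 2) * t ^ 2)) * (3 * C) :=
        mul_le_mul h9 h3 (by positivity) (by positivity)
    _ = _ := by ring

theorem u_inv (hINV : T_INV) (hRES : T_RES) : U_INV := by
  intro hRH δ h v hδ hδ1 hh hh1
  obtain ⟨C, hC, hbd⟩ := fz_bound (θ := 1 / 2) (σ := 1 / 2 + δ) (ε := 1) (by norm_num)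
    (zs_ne hRH) (by linarith) one_pos
  have hb : ∀ x t : ℝ, 1 / 2 + δ ≤ x → x ≤ 3 / 2 → ‖gz h v (⟨x, t⟩ : ℂ) / Fz ⟨x, t⟩‖ ≤
      3 * C * Real.exp (9 / 8 * h ^ 2 + 3 / 2 * |v|) * Real.exp (-(h ^ 2 / 2) * t ^ 2) := by
    intro x t hx hx2
    refine quot_bound h v C x t hC.le (by linarith) hx2 ?_
    have h1 := hbd (⟨x, t⟩ : ℂ) hx (by show x ≤ 2; linarith)
    rwa [Real.rpow_one] at h1
  have hFne : ∀ s : ℂ, 1 / 2 < s.re → Fz s ≠ 0 := by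
    intro s hs
    refine mul_ne_zero ?_ (zs_ne hRH s hs)
    rintro rfl
    simp at hs
    linarith
  have hh2 : 0 < h ^ 2 / 2 := by positivity
  have hint : Integrable (fun t : ℝ => gz h v (⟨1 / 2 + δ, t⟩ : ℂ) / Fz ⟨1 / 2 + δ, t⟩) := by
    refine Integrable.mono' ((integrable_exp_neg_mul_sq hh2).const_mul
      (3 * C * Real.exp (9 / 8 * h ^ 2 + 3 / 2 * |v|))) ?_ (Eventually.of_forall fun t => ?_)
    · have hc : Continuous (fun t : ℝ => (⟨1 / 2 + δ, t⟩ : ℂ)) := by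
        simp_rw [Complex.mk_eq_add_mul_I]
        fun_prop
      refine Continuous.aestronglyMeasurable ?_
      refine Continuous.div ((gz_diff h v).continuous.comp hc) (Fz_diff.continuous.comp hc) ?_
      intro t
      exact hFne _ (by show 1 / 2 < 1 / 2 + δ; linarith)
    · exact hb _ t le_rfl (by linarith)
  have hq1 : ∀ t : ℝ, gz h v (⟨1 / 2 + δ, t⟩ : ℂ) / Fz ⟨1 / 2 + δ, t⟩ =
      GG h v (⟨1 / 2 + δ, t⟩ : ℂ) := by
    intro t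
    refine quot h v _ fun h1 => ?_
    have h2 := congrArg Complex.re h1
    have h3 : 1 / 2 + δ = 1 := h2
    linarith
  have hq2 : ∀ t : ℝ, gz h v (⟨3 / 2, t⟩ : ℂ) / Fz ⟨3 / 2, t⟩ = GG h v (⟨3 / 2, t⟩ : ℂ) := by
    intro t
    refine quot h v _ fun h1 => ?_
    have h2 := congrArg Complex.re h1
    have h3 : (3 / 2 : ℝ) = 1 := h2
    norm_num at h3
  simp_rw [hq1] at hint
  refine ⟨hint, ?_⟩
  obtain ⟨hI1, hI2⟩ := hINV h v hh
  rw [hI2]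
  congr 1
  -- the rectangle
  set Uk : ℕ → ℝ := fun k => (k : ℝ) + 1 with hUk
  have hrect : ∀ k : ℕ, (∫ x in (1 / 2 + δ)..(3 / 2), gz h v (⟨x, -(Uk k)⟩ : ℂ) / Fz ⟨x, -(Uk k)⟩) -
      (∫ x in (1 / 2 + δ)..(3 / 2), gz h v (⟨x, Uk k⟩ : ℂ) / Fz ⟨x, Uk k⟩)
      + Complex.I * (∫ y in (-(Uk k))..(Uk k), GG h v (⟨3 / 2, y⟩ : ℂ))
      - Complex.I * (∫ y in (-(Uk k))..(Uk k), GG h v (⟨1 / 2 + δ, y⟩ : ℂ)) = 0 := by
    intro k
    have hp : 0 < Uk k := by rw [hUk]; positivity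
    have key := hRES Fz (gz h v) ∅ (1 / 2 + δ) (3 / 2) (-(Uk k)) (Uk k) (by linarith)
      (by linarith) Fz_diff (gz_diff h v)
      (by
        intro s hs
        rw [Complex.mem_reProdIm] at hs
        have h1 := hs.1.1
        constructor
        · intro h2
          exact absurd h2 (hFne s (by linarith))
        · intro h2
          simp at h2)
      (by
        intro ρ hρ
        simp at hρ)
    simp only [hq1, hq2, Finset.sum_empty, mul_zero] at key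
    exact key
  have hUt : Tendsto Uk atTop atTop :=
    tendsto_atTop_add_const_right _ _ tendsto_natCast_atTop_atTop
  have hUb : Tendsto (fun k => -(Uk k)) atTop atBot := tendsto_neg_atTop_atBot.comp hUt
  have hdec : Tendsto (fun k : ℕ => 3 * C * Real.exp (9 / 8 * h ^ 2 + 3 / 2 * |v|) *
      Real.exp (-(h ^ 2 / 2) * (Uk k) ^ 2) * |3 / 2 - (1 / 2 + δ)|) atTop (𝓝 0) := by
    have h1 : Tendsto (fun k : ℕ => (Uk k) ^ 2) atTop atTop :=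
      (tendsto_pow_atTop two_ne_zero).comp hUt
    have h2 : Tendsto (fun k : ℕ => -(h ^ 2 / 2) * (Uk k) ^ 2) atTop atBot :=
      h1.const_mul_atTop_of_neg (by linarith)
    have h3 := ((Real.tendsto_exp_atBot.comp h2).const_mul
      (3 * C * Real.exp (9 / 8 * h ^ 2 + 3 / 2 * |v|))).mul_const |3 / 2 - (1 / 2 + δ)|
    rw [mul_zero, zero_mul] at h3
    exact h3
  have hhor : ∀ k : ℕ, ∀ y : ℝ, y ^ 2 = (Uk k) ^ 2 →
      ‖∫ x in (1 / 2 + δ)..(3 / 2), gz h v (⟨x, y⟩ : ℂ) / Fz ⟨x, y⟩‖ ≤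
      3 * C * Real.exp (9 / 8 * h ^ 2 + 3 / 2 * |v|) *
      Real.exp (-(h ^ 2 / 2) * (Uk k) ^ 2) * |3 / 2 - (1 / 2 + δ)| := by
    intro k y hy
    refine intervalIntegral.norm_integral_le_of_norm_le_const fun x hx => ?_
    rw [uIoc_of_le (by linarith)] at hx
    rw [← hy]
    exact hb x y hx.1.le hx.2
  have hB1 := squeeze_zero_norm (fun k => hhor k (-(Uk k)) (by ring)) hdec
  have hB2 := squeeze_zero_norm (fun k => hhor k (Uk k) rfl) hdec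
  have hr := intervalIntegral_tendsto_integral hI1 hUb hUt
  have hl := intervalIntegral_tendsto_integral hint hUb hUt
  have hlim := ((hB1.sub hB2).add (hr.const_mul Complex.I)).sub (hl.const_mul Complex.I)
  have hlim0 : Tendsto (fun _ : ℕ => (0 : ℂ)) atTop (𝓝 (0 - 0 +
      Complex.I * (∫ t : ℝ, GG h v (⟨3 / 2, t⟩ : ℂ)) -
      Complex.I * (∫ t : ℝ, GG h v (⟨1 / 2 + δ, t⟩ : ℂ)))) :=
    hlim.congr fun k => hrect k
  have h0 := tendsto_nhds_unique hlim0 tendsto_const_nhds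
  have h1 : Complex.I * ((∫ t : ℝ, GG h v (⟨3 / 2, t⟩ : ℂ)) -
      (∫ t : ℝ, GG h v (⟨1 / 2 + δ, t⟩ : ℂ))) = 0 := by
    linear_combination h0
  rcases mul_eq_zero.mp h1 with h2 | h2
  · exact absurd h2 Complex.I_ne_zero
  · exact sub_eq_zero.mp h2

end Pool.Agent.W929.WM
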